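import Pool.Agent.Lib.MP_3240be_co.H51.Defs

/-!
# Row STA: stars
-/

set_option autoImplicit false

namespace MP3240T

open Finset

namespace Sta

/-- The star with centre `0` on `Fin (q + 1)`. -/
def st (q : ℕ) : SimpleGraph (Fin (q + 1)) where
  Adj x y := (x = 0 ∧ y ≠ 0) ∨ (y = 0 ∧ x ≠ 0)
  symm := ⟨fun _ _ h => h.symm⟩
  loopless := ⟨fun x h => by rcases h with h | h <;> exact h.2 h.1⟩

theorem arr_st {n q : ℕ} (hq : q = 2 * (n - 1) - 1) (T : SimpleGraph (Fin n)) (v : Fin n)
    (hT : ∀ i j, T.Adj i j ↔ (i = v ∧ j ≠ v) ∨ (j = v ∧ i ≠ v)) :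
    Arr (st q) T := by
  classical
  intro c hc
  let S : Bool → Finset (Fin (q + 1)) := fun b => univ.filter (fun j => j ≠ 0 ∧ c 0 j = b)
  have hsum : (S true).card + (S false).card = q := by
    rw [← Finset.card_union_of_disjoint]
    · have : S true ∪ S false = univ.erase 0 := by
        ext j
        simp only [S, mem_union, mem_filter, mem_univ, true_and, mem_erase, and_true]
        cases c 0 j <;> simp
      rw [this, card_erase_of_mem (mem_univ _)]
      simp
    · rw [Finset.disjoint_left]
      intro j h1 h2
      simp only [S, mem_filter, mem_univ, true_and] at h1 h2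
      rw [h1.2] at h2
      exact absurd h2.2 (by simp)
  have hb : ∃ b, n - 1 ≤ (S b).card := by
    by_cases h : n - 1 ≤ (S true).card
    · exact ⟨true, h⟩
    · exact ⟨false, by omega⟩
  obtain ⟨b, hb⟩ := hb
  refine ⟨b, ?_⟩
  have hcard : Fintype.card {i : Fin n // i ≠ v} ≤ Fintype.card (S b) := by
    rw [Fintype.card_coe]
    have : Fintype.card {i : Fin n // i ≠ v} = n - 1 := by
      rw [Fintype.card_subtype_compl, Fintype.card_fin]
      simp
    omega
  obtain ⟨g⟩ := Function.Embedding.nonempty_of_card_le hcard
  have hg : ∀ x, ((g x : Fin (q + 1)) ≠ 0) ∧ c 0 (g x) = b := by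
    intro x
    have := (g x).2
    simpa only [S, mem_filter, mem_univ, true_and] using this
  refine ⟨fun i => if h : i = v then 0 else (g ⟨i, h⟩ : Fin (q + 1)), ?_, ?_⟩
  · intro i j hij
    by_cases h1 : i = v <;> by_cases h2 : j = v
    · rw [h1, h2]
    · simp only [h1, h2, dite_true, dite_false] at hij
      exact absurd hij.symm (hg _).1
    · simp only [h1, h2, dite_true, dite_false] at hij
      exact absurd hij (hg _).1
    · simp only [h1, h2, dite_false] at hij
      have := g.injective (Subtype.ext hij)
      simpa using this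
  · intro i j hij
    rcases (hT i j).1 hij with ⟨h1, h2⟩ | ⟨h1, h2⟩
    · simp only [h1, h2, dite_true, dite_false]
      refine ⟨Or.inl ⟨rfl, (hg _).1⟩, (hg _).2, ?_⟩
      rw [hc]
      exact (hg _).2
    · simp only [h1, h2, dite_true, dite_false]
      refine ⟨Or.inr ⟨rfl, (hg _).1⟩, ?_, (hg _).2⟩
      rw [hc]
      exact (hg _).2

theorem not_arr_st {n q : ℕ} (hq : q = 2 * (n - 1) - 1) (T' : SimpleGraph (Fin (n + 1)))
    (w : Fin (n + 1)) (hn : 0 < n) (hT : ∀ i, i ≠ w → T'.Adj w i) :
    ¬ Arr (st q) T' := by
  classical
  intro h
  obtain ⟨b, f, hf, hadj⟩ := h (fun x y => decide (x.val + y.val < n - 1))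
    (fun x y => by simp only [Nat.add_comm])
  have hI : (univ.erase w).image f ⊆
      univ.filter (fun z => (cls (st q) (fun x y => decide (x.val + y.val < n - 1)) b).Adj (f w) z)
      := by
    intro z hz
    rw [mem_image] at hz
    obtain ⟨i, hi, rfl⟩ := hz
    simp only [mem_filter, mem_univ, true_and]
    exact hadj _ _ (hT i (ne_of_mem_erase hi))
  have hc := card_le_card hI
  rw [card_image_of_injective _ hf, card_erase_of_mem (mem_univ _), card_univ, Fintype.card_fin]
    at hc
  simp only [Nat.add_sub_cancel] at hc
  -- every vertex has fewer than `n` neighbours of each colour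
  have hq1 : n + 1 ≤ q + 1 := by
    have := Fintype.card_le_of_injective f hf
    simpa using this
  by_cases h0 : f w = 0
  · have hsub : (univ.filter (fun z =>
        (cls (st q) (fun x y => decide (x.val + y.val < n - 1)) b).Adj (f w) z)).card ≤ n - 1 := by
      cases b
      · have : (univ.filter (fun z =>
          (cls (st q) (fun x y => decide (x.val + y.val < n - 1)) false).Adj (f w) z)).card ≤
            (Finset.Ico (n - 1) (q + 1)).card := by
          apply Finset.card_le_card_of_injOn (fun z => z.val)
          · intro z hz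
            have hz := (mem_filter.1 (mem_coe.1 hz)).2
            have h1 := hz.2.1
            rw [h0] at h1
            simp only [Fin.val_zero, Nat.zero_add, decide_eq_false_iff_not, not_lt] at h1
            rw [mem_coe, mem_Ico]
            exact ⟨h1, z.2⟩
          · intro z _ z' _ h
            exact Fin.ext h
        rw [Nat.card_Ico] at this
        omega
      · have : (univ.filter (fun z =>
          (cls (st q) (fun x y => decide (x.val + y.val < n - 1)) true).Adj (f w) z)).card ≤
            (Finset.range (n - 1)).card := by
          apply Finset.card_le_card_of_injOn (fun z => z.val)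
          · intro z hz
            have hz := (mem_filter.1 (mem_coe.1 hz)).2
            have h1 := hz.2.1
            rw [h0] at h1
            simp only [Fin.val_zero, Nat.zero_add, decide_eq_true_eq] at h1
            rw [mem_coe, mem_range]
            exact h1
          · intro z _ z' _ h
            exact Fin.ext h
        rw [card_range] at this
        exact this
    omega
  · have hsub : (univ.filter (fun z =>
        (cls (st q) (fun x y => decide (x.val + y.val < n - 1)) b).Adj (f w) z)).card ≤ 1 := by
      rw [card_le_one]
      intro z hz z' hz'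
      have h1 := (mem_filter.1 hz).2.1
      have h2 := (mem_filter.1 hz').2.1
      rcases h1 with h1 | h1
      · exact absurd h1.1 h0
      · rcases h2 with h2 | h2
        · exact absurd h2.1 h0
        · rw [h1.1, h2.1]
    omega

end Sta

theorem sta_proof : StaStatement := by
  intro n T T' v h1 h2 h3
  refine ⟨2 * (n - 1) - 1 + 1, Sta.st _, Sta.arr_st rfl T v h3, ?_⟩
  have hn : 0 < n := lt_of_le_of_lt (Nat.zero_le _) v.2
  refine Sta.not_arr_st rfl T' v.castSucc hn ?_
  intro i hi
  induction i using Fin.lastCases with
  | last => exact (T'.adj_comm _ _).1 ((h2 v).2 rfl)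
  | cast j =>
    rw [h1, h3]
    refine Or.inl ⟨rfl, ?_⟩
    rintro rfl
    exact hi rfl

end MP3240T
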